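import Pool.Agent.HH27.SN.Fin

set_option autoImplicit false

/-!
Under the Riemann hypothesis, for every even `n ≥ 2`, as `t → ∞`,
`-(A_n^- + o(1)) Λ_n(t) ≤ S_n(t) ≤ (A_n^+ + o(1)) Λ_n(t)`.

The definitions are in `Pool.Agent.R305.SK.Def`: `Sarg` and `Sfun` (the function `S(t)`), `Sn` (the iterated
integrals `S_n`), `del` (the constants of integration), `Mx`, `mn` (extreme values of Bernoulli polynomials),
`Aminus`, `Aplus`, `Lam`.

Proof. Let `θ` in `(0, 1)` be a point where `B_(n+1)` has its maximum (or minimum) on `[0, 1]`. The entire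
type `2π` kernel `sin² (π (x + θ)) (Σ_k sgn(k) / (x + k + θ)² ...)` of `Pool.Agent.R305.SK` has a constant sign on
the real line, its integral is `∓ π² B_(n+1)(θ) / (n + 1)`, and it jumps by `π² z^n` across the imaginary axis.
Shifting the contour in the integral of `ζ'/ζ (1/2 + η + i t - i z)` against the dilated kernel gives
`∫_0^U u^n ζ'/ζ (1/2 + η + u + i t) du`, which is `- n!` times the `n`-fold iterated integral of `log ζ`, that is
`S_n(t)` up to a bounded error. On the real line only the sign of the sum over the zeros is used.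

The theorem `mean` below shows that `S_1`, with the constant `δ_1 = (1/π) ∫_{1/2}^∞ log |ζ(σ)| dσ` used here,
has mean value zero.
-/

namespace Pool.Agent.Results.MP_155064_nt.SharpEvenOrder

open Filter Topology MeasureTheory Pool.Agent.R305.SK Pool.Agent.HH27.SN

theorem bounds (hRH : RiemannHypothesis) (n : ℕ) (hn : Even n) (h2 : 2 ≤ n) (ε : ℝ) (hε : 0 < ε) :
    ∀ᶠ t : ℝ in atTop, -(Aminus n + ε) * Lam n t ≤ Sn n t ∧ Sn n t ≤ (Aplus n + ε) * Lam n t := by
  obtain ⟨m, rfl⟩ : ∃ m, n = m + 1 := ⟨n - 1, by omega⟩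
  obtain ⟨θ, h⟩ := exists_ext hn (Nat.succ_ne_zero m) (ε := 1) (Or.inl rfl)
  have hv := (ext_val h).2
  filter_upwards [one_side hRH hn (ε := 1) (Or.inl rfl) hε, one_side hRH hn (ε := -1) (Or.inr rfl) hε] with t h3 h4
  unfold Aminus Aplus
  rw [hv]
  constructor
  · linarith
  · have e : -(Real.pi ^ (m + 1) * -Mx (m + 1 + 1)) = Real.pi ^ (m + 1) * Mx (m + 1 + 1) := by ring
    rw [e]
    linarith

theorem lam_two : Tendsto (fun t : ℝ => Lam 2 t / t) atTop (𝓝 0) := by
  have h1 : Tendsto (fun t : ℝ => Real.log t / t) atTop (𝓝 0) := by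
    have := Real.isLittleO_log_id_atTop.tendsto_div_nhds_zero
    exact this
  refine squeeze_zero' ?_ ?_ h1
  · have hw : Tendsto (fun t : ℝ => Real.log (Real.log t)) atTop atTop :=
      Real.tendsto_log_atTop.comp Real.tendsto_log_atTop
    filter_upwards [hw.eventually_ge_atTop 1, eventually_ge_atTop 1] with t h2 h3
    have := Real.log_nonneg h3
    unfold Lam
    positivity
  · have hw : Tendsto (fun t : ℝ => Real.log (Real.log t)) atTop atTop :=
      Real.tendsto_log_atTop.comp Real.tendsto_log_atTop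
    filter_upwards [hw.eventually_ge_atTop 1, eventually_ge_atTop 1] with t h2 h3
    have h4 := Real.log_nonneg h3
    unfold Lam
    gcongr
    exact div_le_self h4 (one_le_pow₀ h2)

theorem mean (hRH : RiemannHypothesis) : Tendsto (fun T : ℝ => 1 / T * ∫ t in (0:ℝ)..T, Sn 1 t) atTop (𝓝 0) := by
  have hb := bounds hRH 2 even_two le_rfl 1 one_pos
  have e : ∀ T : ℝ, 1 / T * ∫ t in (0:ℝ)..T, Sn 1 t = Sn 2 T / T - del 2 / T := by
    intro T
    have : Sn 2 T = (∫ t in (0:ℝ)..T, Sn 1 t) + del 2 := rfl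
    rw [this]
    ring
  simp only [e]
  have h1 : Tendsto (fun T : ℝ => del 2 / T) atTop (𝓝 0) := tendsto_const_nhds.div_atTop tendsto_id
  have h2 : Tendsto (fun T : ℝ => Sn 2 T / T) atTop (𝓝 0) := by
    have l1 : Tendsto (fun T : ℝ => -(Aminus 2 + 1) * (Lam 2 T / T)) atTop (𝓝 0) := by
      have := lam_two.const_mul (-(Aminus 2 + 1))
      rwa [mul_zero] at this
    have l2 : Tendsto (fun T : ℝ => (Aplus 2 + 1) * (Lam 2 T / T)) atTop (𝓝 0) := by
      have := lam_two.const_mul (Aplus 2 + 1)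
      rwa [mul_zero] at this
    refine tendsto_of_tendsto_of_tendsto_of_le_of_le' l1 l2 ?_ ?_
    · filter_upwards [hb, eventually_gt_atTop 0] with T hT hT0
      rw [← mul_div_assoc]
      gcongr
      exact hT.1
    · filter_upwards [hb, eventually_gt_atTop 0] with T hT hT0
      rw [← mul_div_assoc]
      gcongr
      exact hT.2
  have := h2.sub h1
  rwa [sub_zero] at this

/-- Under RH, for every even `n ≥ 2` and every `ε > 0`, for all large `t`,
`-(A_n^- + ε) Λ_n(t) ≤ S_n(t) ≤ (A_n^+ + ε) Λ_n(t)`. -/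
theorem result (hRH : RiemannHypothesis) :
    ∀ n : ℕ, Even n → 2 ≤ n → ∀ ε : ℝ, 0 < ε →
      ∀ᶠ t : ℝ in atTop, -(Aminus n + ε) * Lam n t ≤ Sn n t ∧ Sn n t ≤ (Aplus n + ε) * Lam n t :=
  fun n hn h2 ε hε => bounds hRH n hn h2 ε hε

end Pool.Agent.Results.MP_155064_nt.SharpEvenOrder
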